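import Pool.Agent.Helper58.SU.StQ

/-!
# Project SU, module FU2 (from fixed windows to `(c √N, c √N + N^κ]`)
-/

set_option autoImplicit false

namespace Pool.Agent.Helper82.SU

open Finset ArithmeticFunction
open Pool.Agent.Helper48.BK (ex th Sx Apx)
open Pool.Agent.Helper23.GK
open Pool.Agent.Helper58.SU

lemma th_nn (n : ℕ) : 0 ≤ th n := by
  unfold th
  split_ifs
  · exact Real.log_natCast_nonneg n
  · exact le_rfl

lemma th_le_log (n : ℕ) : th n ≤ Real.log n := by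
  unfold th
  split_ifs
  · exact le_rfl
  · exact Real.log_natCast_nonneg n

/-- the summand -/
noncomputable def gN (N n : ℕ) : ℝ := if n < N then th n * th (N - n) else 0

lemma gN_nn (N n : ℕ) : 0 ≤ gN N n := by
  unfold gN
  split_ifs
  · exact mul_nonneg (th_nn _) (th_nn _)
  · exact le_rfl

lemma log_mono {a b : ℕ} (h : a ≤ b) : Real.log a ≤ Real.log b := by
  rcases Nat.eq_zero_or_pos a with h0 | h0
  · subst h0; simpa using Real.log_natCast_nonneg b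
  · exact Real.log_le_log (by exact_mod_cast h0) (by exact_mod_cast h)

lemma gN_le (N n : ℕ) : gN N n ≤ Real.log N ^ 2 := by
  unfold gN
  split_ifs with h
  · have h1 : th n ≤ Real.log N := (th_le_log n).trans (log_mono h.le)
    have h2 : th (N - n) ≤ Real.log N := (th_le_log _).trans (log_mono (Nat.sub_le _ _))
    rw [sq]
    exact mul_le_mul h1 h2 (th_nn _) (Real.log_natCast_nonneg N)
  · positivity

/-- partial sums -/
noncomputable def GN (N m : ℕ) : ℝ := ∑ n ∈ Ioc 0 m, gN N n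

lemma GN_diff (N : ℕ) {a b : ℕ} (h : a ≤ b) : ∑ n ∈ Ioc a b, gN N n = GN N b - GN N a := by
  unfold GN
  rw [eq_sub_iff_add_eq, add_comm]
  exact Finset.sum_Ioc_consecutive _ (Nat.zero_le a) h

lemma GN_lip_aux (N : ℕ) {a b : ℕ} (h : a ≤ b) :
    |GN N b - GN N a| ≤ |(b : ℝ) - a| * Real.log N ^ 2 := by
  rw [← GN_diff N h, abs_of_nonneg (Finset.sum_nonneg fun n _ => gN_nn N n)]
  have h1 := Finset.sum_le_card_nsmul (Ioc a b) (gN N) (Real.log N ^ 2) fun n _ => gN_le N n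
  rw [Nat.card_Ioc, nsmul_eq_mul, Nat.cast_sub h] at h1
  refine h1.trans (mul_le_mul_of_nonneg_right (le_abs_self _) (by positivity))

lemma GN_lip (N a b : ℕ) : |GN N b - GN N a| ≤ |(b : ℝ) - a| * Real.log N ^ 2 := by
  rcases le_total a b with h | h
  · exact GN_lip_aux N h
  · rw [abs_sub_comm, abs_sub_comm (b : ℝ)]
    exact GN_lip_aux N h

lemma RU_eq (N : ℕ) (a b : ℝ) : RU N a b = ∑ n ∈ Ioc ⌊a⌋₊ ⌊b⌋₊, gN N n := by
  unfold RU gN
  rw [Finset.sum_filter]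
  refine Finset.sum_congr rfl fun n _ => ?_
  unfold th
  by_cases h1 : n < N
  · by_cases h2 : n.Prime
    · by_cases h3 : (N - n).Prime
      · rw [if_pos ⟨h2, h1, h3⟩, if_pos h1, if_pos h2, if_pos h3]
      · rw [if_neg fun h => h3 h.2.2, if_pos h1, if_neg h3, mul_zero]
    · rw [if_neg fun h => h2 h.1, if_pos h1, if_neg h2, zero_mul]
  · rw [if_neg fun h => h1 h.2.1, if_neg h1]

lemma compare_RU (N y h : ℕ) {a b : ℝ} (hab : a ≤ b) :
    |RU N a b - ∑ n ∈ (Ioc y (y + h)).filter (fun n => n < N), th n * th (N - n)| ≤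
      (|(⌊a⌋₊ : ℝ) - y| + |(⌊b⌋₊ : ℝ) - (y + h : ℕ)|) * Real.log N ^ 2 := by
  have h1 : ∑ n ∈ (Ioc y (y + h)).filter (fun n => n < N), th n * th (N - n) =
      ∑ n ∈ Ioc y (y + h), gN N n := by
    rw [Finset.sum_filter]; rfl
  rw [h1, RU_eq, GN_diff N (Nat.floor_le_floor hab), GN_diff N (Nat.le_add_right y h)]
  have h2 := GN_lip N y ⌊a⌋₊
  have h3 := GN_lip N (y + h) ⌊b⌋₊
  have h4 : GN N ⌊b⌋₊ - GN N ⌊a⌋₊ - (GN N (y + h) - GN N y) =
      (GN N ⌊b⌋₊ - GN N (y + h)) - (GN N ⌊a⌋₊ - GN N y) := by ring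
  rw [h4]
  have h5 := abs_sub (GN N ⌊b⌋₊ - GN N (y + h)) (GN N ⌊a⌋₊ - GN N y)
  linarith

lemma ZB_bounds {X H N : ℕ} (hH : 0 < H) (hN : X < N) :
    X ≤ ZB X H N ∧ ZB X H N ≤ N ∧ N ≤ ZB X H N + H := by
  unfold ZB
  have h1 := Nat.div_mul_le_self (N - X - 1) H
  have h2 := Nat.lt_div_mul_add (a := N - X - 1) hH
  rw [mul_comm] at h1 h2
  refine ⟨by omega, by omega, by omega⟩

/-- the pointwise step -/
lemma point {c κ δ L R : ℝ} {A X H N j J h : ℕ} (hc : 0 < c) (hκ0 : 0 < κ) (hκ1 : κ ≤ 1)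
    (hL : L = Real.log X) (hLA : 34 * (2 : ℝ) ^ A ≤ L) (hR : R = (X : ℝ) ^ κ)
    (hbig : (4 * c + 5) * L ^ (A + 6) ≤ (X : ℝ) ^ δ) (hδ : δ ≤ κ)
    (hX : 2 ≤ X) (hH : H = ⌈(X : ℝ) ^ (1 / 2 + κ - δ)⌉₊) (hXN : X < N) (hNX : N ≤ 2 * X)
    (hJ : J = ⌈L ^ (A + 6)⌉₊) (hj : j = ⌊((N : ℝ) ^ κ / R - 1) * J⌋₊)
    (hh : h = ⌊R * (1 + j / J)⌋₊)
    (hS1 : 1 ≤ SS N) (hS2 : SS N ≤ 2 * (1 + 2 * Real.log N))
    (hgood : |∑ n ∈ (Ioc (yB c X H N) (yB c X H N + h)).filter (fun n => n < N),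
      th n * th (N - n) - SS N * h| ≤ (h : ℝ) / L ^ (2 * A + 7)) :
    |RU N (c * √(N : ℝ)) (c * √(N : ℝ) + (N : ℝ) ^ κ) - SS N * (N : ℝ) ^ κ| ≤
      (N : ℝ) ^ κ / Real.log N ^ A := by
  have hX2 : (2 : ℝ) ≤ X := by exact_mod_cast hX
  have hXp : (0 : ℝ) < X := by linarith
  have hX1 : (1 : ℝ) ≤ X := by linarith
  have hNx : (X : ℝ) < N := by exact_mod_cast hXN
  have hNr : (N : ℝ) ≤ 2 * X := by exact_mod_cast hNX
  have hNp : (0 : ℝ) < N := by linarith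
  have hA1 : (1 : ℝ) ≤ 2 ^ A := one_le_pow₀ (by norm_num)
  have hL34 : (34 : ℝ) ≤ L := by linarith
  have hL1 : (1 : ℝ) ≤ L := by linarith
  have hL0 : (0 : ℝ) < L := by linarith
  have hLA6 : (1 : ℝ) ≤ L ^ (A + 6) := one_le_pow₀ hL1
  have hR0 : 0 < R := by rw [hR]; positivity
  have hNR : R ≤ (N : ℝ) ^ κ := by
    rw [hR]; exact Real.rpow_le_rpow hXp.le hNx.le hκ0.le
  have hNR2 : (N : ℝ) ^ κ ≤ 2 * R := by
    calc (N : ℝ) ^ κ ≤ (2 * X) ^ κ := Real.rpow_le_rpow hNp.le hNr hκ0.le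
      _ = 2 ^ κ * R := by rw [Real.mul_rpow (by norm_num) hXp.le, hR]
      _ ≤ 2 ^ (1 : ℝ) * R := by
          refine mul_le_mul_of_nonneg_right ?_ hR0.le
          exact Real.rpow_le_rpow_of_exponent_le (by norm_num) hκ1
      _ = 2 * R := by rw [Real.rpow_one]
  -- the small quantity
  set e : ℝ := R / L ^ (A + 6) with he
  have he0 : 0 < e := by positivity
  have hRe : R = e * L ^ (A + 6) := by rw [he]; field_simp
  have hXδ : (X : ℝ) ^ δ ≤ R := by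
    rw [hR]; exact Real.rpow_le_rpow_of_exponent_le hX1 hδ
  have he5 : 5 ≤ e := by
    rw [he, le_div_iff₀ (by positivity)]
    have : 5 * L ^ (A + 6) ≤ (4 * c + 5) * L ^ (A + 6) := by
      refine mul_le_mul_of_nonneg_right (by linarith) (by positivity)
    linarith
  have hXκδ : 4 * c * (X : ℝ) ^ (κ - δ) ≤ e := by
    rw [he, le_div_iff₀ (by positivity)]
    have h1 : R = (X : ℝ) ^ (κ - δ) * (X : ℝ) ^ δ := by
      rw [hR, ← Real.rpow_add hXp]; congr 1; ring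
    have h2 : 4 * c * L ^ (A + 6) ≤ (X : ℝ) ^ δ := by
      have : 4 * c * L ^ (A + 6) ≤ (4 * c + 5) * L ^ (A + 6) := by
        refine mul_le_mul_of_nonneg_right (by linarith) (by positivity)
      linarith
    have h3 : 0 ≤ (X : ℝ) ^ (κ - δ) := by positivity
    calc 4 * c * (X : ℝ) ^ (κ - δ) * L ^ (A + 6) = (X : ℝ) ^ (κ - δ) * (4 * c * L ^ (A + 6)) := by
          ring
      _ ≤ (X : ℝ) ^ (κ - δ) * (X : ℝ) ^ δ := mul_le_mul_of_nonneg_left h2 h3
      _ = R := h1.symm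
  -- the number of windows
  have hJlo : L ^ (A + 6) ≤ (J : ℝ) := by rw [hJ]; exact Nat.le_ceil _
  have hJ0 : (0 : ℝ) < J := by linarith
  have hRJ : R / J ≤ e := div_le_div_of_nonneg_left hR0.le (by positivity) hJlo
  -- the start
  have hHpos : 0 < H := by
    rw [hH, Nat.ceil_pos]; positivity
  obtain ⟨hZ1, hZ2, hZ3⟩ := ZB_bounds (X := X) (H := H) (N := N) hHpos hXN
  set Z : ℕ := ZB X H N with hZ
  have hZ1r : (X : ℝ) ≤ Z := by exact_mod_cast hZ1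
  have hZ2r : (Z : ℝ) ≤ N := by exact_mod_cast hZ2
  have hZ3r : (N : ℝ) ≤ Z + H := by exact_mod_cast hZ3
  have hHle : (H : ℝ) ≤ 2 * (X : ℝ) ^ (1 / 2 + κ - δ) := by
    have h1 := Nat.ceil_lt_add_one (show 0 ≤ (X : ℝ) ^ (1 / 2 + κ - δ) by positivity)
    have h2 : 1 ≤ (X : ℝ) ^ (1 / 2 + κ - δ) := Real.one_le_rpow hX1 (by linarith)
    rw [← hH] at h1
    linarith
  have hsX : 0 < √(X : ℝ) := Real.sqrt_pos.2 hXp
  have hsZ : √(X : ℝ) ≤ √(Z : ℝ) := Real.sqrt_le_sqrt hZ1r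
  have hsN : √(Z : ℝ) ≤ √(N : ℝ) := Real.sqrt_le_sqrt hZ2r
  have hdiff : √(N : ℝ) - √(Z : ℝ) ≤ 2 * (X : ℝ) ^ (κ - δ) := by
    have h1 : (√(N : ℝ) - √(Z : ℝ)) * √(X : ℝ) ≤ H := by
      have h2 : (√(N : ℝ) - √(Z : ℝ)) * √(X : ℝ) ≤
          (√(N : ℝ) - √(Z : ℝ)) * (√(N : ℝ) + √(Z : ℝ)) := by
        refine mul_le_mul_of_nonneg_left ?_ (by linarith)
        linarith [Real.sqrt_nonneg (N : ℝ)]
      have h3 : (√(N : ℝ) - √(Z : ℝ)) * (√(N : ℝ) + √(Z : ℝ)) = N - Z := by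
        have h4 := Real.mul_self_sqrt hNp.le
        have h5 := Real.mul_self_sqrt (show (0 : ℝ) ≤ Z by positivity)
        have h6 : (√(N : ℝ) - √(Z : ℝ)) * (√(N : ℝ) + √(Z : ℝ)) =
            √(N : ℝ) * √(N : ℝ) - √(Z : ℝ) * √(Z : ℝ) := by ring
        rw [h6, h4, h5]
      linarith
    have h2 : (H : ℝ) ≤ 2 * (X : ℝ) ^ (κ - δ) * √(X : ℝ) := by
      refine hHle.trans (le_of_eq ?_)
      rw [Real.sqrt_eq_rpow, mul_assoc, ← Real.rpow_add hXp]
      congr 2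
      ring
    exact le_of_mul_le_mul_right (h1.trans h2) hsX
  set a : ℝ := c * √(N : ℝ) with ha
  set z : ℝ := c * √(Z : ℝ) with hz
  have hz0 : 0 ≤ z := by positivity
  have haz0 : 0 ≤ a - z := sub_nonneg.2 (mul_le_mul_of_nonneg_left hsN hc.le)
  have haz : a - z ≤ e / 2 := by
    have : a - z = c * (√(N : ℝ) - √(Z : ℝ)) := by rw [ha, hz]; ring
    rw [this]
    have h1 := mul_le_mul_of_nonneg_left hdiff hc.le
    linarith
  have hy : yB c X H N = ⌊z⌋₊ := rfl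
  set y : ℕ := yB c X H N with hyd
  have hy1 : (y : ℝ) ≤ z := by rw [hy]; exact Nat.floor_le hz0
  have hy2 : z < (y : ℝ) + 1 := by rw [hy]; exact Nat.lt_floor_add_one z
  -- the length
  have hv : 0 ≤ ((N : ℝ) ^ κ / R - 1) * J := by
    refine mul_nonneg ?_ hJ0.le
    rw [sub_nonneg, le_div_iff₀ hR0, one_mul]
    exact hNR
  have hj1 : (j : ℝ) ≤ ((N : ℝ) ^ κ / R - 1) * J := by rw [hj]; exact Nat.floor_le hv
  have hj2 : ((N : ℝ) ^ κ / R - 1) * J < (j : ℝ) + 1 := by rw [hj]; exact Nat.lt_floor_add_one _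
  set Rj : ℝ := R * (1 + j / J) with hRj
  have hRj0 : 0 ≤ Rj := by positivity
  have hRj1 : Rj ≤ (N : ℝ) ^ κ := by
    have h1 : (j : ℝ) / J ≤ (N : ℝ) ^ κ / R - 1 := by
      rw [div_le_iff₀ hJ0]; exact hj1
    have h2 : R * (1 + j / J) ≤ R * ((N : ℝ) ^ κ / R) :=
      mul_le_mul_of_nonneg_left (by linarith) hR0.le
    have h3 : R * ((N : ℝ) ^ κ / R) = (N : ℝ) ^ κ := by field_simp
    rw [h3] at h2
    exact h2
  have hRj2 : (N : ℝ) ^ κ ≤ Rj + e := by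
    have h1 : (N : ℝ) ^ κ / R - 1 ≤ ((j : ℝ) + 1) / J := by
      rw [le_div_iff₀ hJ0]; exact hj2.le
    have h2 : R * ((N : ℝ) ^ κ / R) ≤ R * (1 + ((j : ℝ) + 1) / J) :=
      mul_le_mul_of_nonneg_left (by linarith) hR0.le
    have h3 : R * ((N : ℝ) ^ κ / R) = (N : ℝ) ^ κ := by field_simp
    have h4 : R * (1 + ((j : ℝ) + 1) / J) = Rj + R / J := by rw [hRj]; field_simp; ring
    rw [h3, h4] at h2
    linarith
  have hh1 : (h : ℝ) ≤ Rj := by rw [hh]; exact Nat.floor_le hRj0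
  have hh2 : Rj < (h : ℝ) + 1 := by rw [hh]; exact Nat.lt_floor_add_one _
  -- end points
  have hNκ0 : 0 ≤ (N : ℝ) ^ κ := by positivity
  have ha0 : 0 ≤ a := by linarith
  have f1 : (⌊a⌋₊ : ℝ) ≤ a := Nat.floor_le ha0
  have f2 : a < (⌊a⌋₊ : ℝ) + 1 := Nat.lt_floor_add_one a
  have f3 : (⌊a + (N : ℝ) ^ κ⌋₊ : ℝ) ≤ a + (N : ℝ) ^ κ := Nat.floor_le (by linarith)
  have f4 : a + (N : ℝ) ^ κ < (⌊a + (N : ℝ) ^ κ⌋₊ : ℝ) + 1 := Nat.lt_floor_add_one _
  have g1 : |(⌊a⌋₊ : ℝ) - y| ≤ e / 2 + 1 := by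
    rw [abs_le]; constructor <;> linarith
  have g2 : |(⌊a + (N : ℝ) ^ κ⌋₊ : ℝ) - (y + h : ℕ)| ≤ 3 * e / 2 + 2 := by
    push_cast
    rw [abs_le]; constructor <;> linarith
  have hlogN : Real.log N ≤ 2 * L := by
    have h1 : (N : ℝ) ≤ (X : ℝ) ^ 2 := by
      rw [sq]
      exact hNr.trans (mul_le_mul_of_nonneg_right hX2 hXp.le)
    have h2 := Real.log_le_log hNp h1
    rw [Real.log_pow] at h2
    push_cast at h2
    rw [hL]
    exact h2
  have hlogN0 : 0 < Real.log N := by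
    have : L ≤ Real.log N := by rw [hL]; exact Real.log_le_log hXp hNx.le
    linarith
  have hcmp := compare_RU N y h (a := a) (b := a + (N : ℝ) ^ κ) (by linarith)
  set S : ℝ := ∑ n ∈ (Ioc y (y + h)).filter (fun n => n < N), th n * th (N - n) with hSd
  have c1 : |RU N a (a + (N : ℝ) ^ κ) - S| ≤ 12 * L ^ 2 * e := by
    refine hcmp.trans ?_
    have h1 : |(⌊a⌋₊ : ℝ) - y| + |(⌊a + (N : ℝ) ^ κ⌋₊ : ℝ) - (y + h : ℕ)| ≤ 3 * e := by linarith
    have h2 : Real.log N ^ 2 ≤ (2 * L) ^ 2 := pow_le_pow_left₀ hlogN0.le hlogN 2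
    calc (|(⌊a⌋₊ : ℝ) - y| + |(⌊a + (N : ℝ) ^ κ⌋₊ : ℝ) - (y + h : ℕ)|) * Real.log N ^ 2
        ≤ (3 * e) * (2 * L) ^ 2 := mul_le_mul h1 h2 (by positivity) (by positivity)
      _ = 12 * L ^ 2 * e := by ring
  have c2 : |S - SS N * h| ≤ 2 * e := by
    refine hgood.trans ?_
    have h1 : (h : ℝ) ≤ 2 * R := by linarith
    have h2 : L ^ (A + 6) ≤ L ^ (2 * A + 7) := pow_le_pow_right₀ hL1 (by omega)
    calc (h : ℝ) / L ^ (2 * A + 7) ≤ (2 * R) / L ^ (A + 6) :=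
          div_le_div₀ (by positivity) h1 (by positivity) h2
      _ = 2 * e := by rw [he]; ring
  have c3 : |SS N * h - SS N * (N : ℝ) ^ κ| ≤ 20 * L * e := by
    rw [← mul_sub, abs_mul, abs_of_nonneg (by linarith : 0 ≤ SS N)]
    have h1 : |(h : ℝ) - (N : ℝ) ^ κ| ≤ 2 * e := by
      rw [abs_le]; constructor <;> linarith
    have h2 : SS N ≤ 10 * L := by linarith
    calc SS N * |(h : ℝ) - (N : ℝ) ^ κ| ≤ (10 * L) * (2 * e) :=
          mul_le_mul h2 h1 (abs_nonneg _) (by positivity)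
      _ = 20 * L * e := by ring
  have c4 : |RU N a (a + (N : ℝ) ^ κ) - SS N * (N : ℝ) ^ κ| ≤ 34 * L ^ 2 * e := by
    have h1 : RU N a (a + (N : ℝ) ^ κ) - SS N * (N : ℝ) ^ κ =
        (RU N a (a + (N : ℝ) ^ κ) - S) + ((S - SS N * h) + (SS N * h - SS N * (N : ℝ) ^ κ)) := by
      ring
    rw [h1]
    have h2 := abs_add_le (RU N a (a + (N : ℝ) ^ κ) - S)
      ((S - SS N * h) + (SS N * h - SS N * (N : ℝ) ^ κ))
    have h3 := abs_add_le (S - SS N * h) (SS N * h - SS N * (N : ℝ) ^ κ)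
    have h4 : 20 * L * e ≤ 20 * L ^ 2 * e := by
      have : L ≤ L ^ 2 := le_self_pow₀ hL1 (by norm_num)
      exact mul_le_mul_of_nonneg_right (by linarith) he0.le
    have h5 : 2 * e ≤ 2 * L ^ 2 * e := by
      have : 1 ≤ L ^ 2 := one_le_pow₀ hL1
      exact mul_le_mul_of_nonneg_right (by linarith) he0.le
    linarith
  refine c4.trans ?_
  calc 34 * L ^ 2 * e = 34 * R / L ^ (A + 4) := by
        rw [he, show A + 6 = 2 + (A + 4) by ring, pow_add L 2 (A + 4)]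
        field_simp
    _ ≤ R / (2 ^ A * L ^ A) := by
        rw [div_le_div_iff₀ (by positivity) (by positivity)]
        have h4 : 34 * (2 : ℝ) ^ A ≤ L ^ 4 := hLA.trans (le_self_pow₀ hL1 (by norm_num))
        have h5 : 0 ≤ R * L ^ A := by positivity
        calc 34 * R * (2 ^ A * L ^ A) = (34 * 2 ^ A) * (R * L ^ A) := by ring
          _ ≤ L ^ 4 * (R * L ^ A) := mul_le_mul_of_nonneg_right h4 h5
          _ = R * L ^ (A + 4) := by ring
    _ = R / (2 * L) ^ A := by rw [mul_pow]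
    _ ≤ (N : ℝ) ^ κ / Real.log N ^ A := by
        refine div_le_div₀ hNκ0 hNR (by positivity) ?_
        exact pow_le_pow_left₀ hlogN0.le hlogN A

theorem hFU2 (h1 : StFu1) (h2 : StSsa) : StFu2 := by
  intro c κ hc hκ1 hκ2 A
  obtain ⟨X1, hX1⟩ := h1 c κ hc hκ1 hκ2 (2 * A + 7)
  have hδ0 : 0 < dl κ := by unfold dl; linarith
  have hδκ : dl κ ≤ κ := by unfold dl; linarith
  have hlog : Filter.Tendsto (fun X : ℕ => Real.log X) Filter.atTop Filter.atTop :=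
    Real.tendsto_log_atTop.comp tendsto_natCast_atTop_atTop
  have hev1 : ∀ᶠ X : ℕ in Filter.atTop, 34 * (2 : ℝ) ^ A ≤ Real.log X :=
    hlog.eventually_ge_atTop _
  have hev2 : ∀ᶠ X : ℕ in Filter.atTop,
      (4 * c + 5) * Real.log X ^ (A + 6) ≤ (X : ℝ) ^ dl κ := by
    have h0 := isLittleO_log_rpow_rpow_atTop ((A + 6 : ℕ) : ℝ) hδ0
    have h1 := (h0.bound (show (0 : ℝ) < 1 / (4 * c + 5) by positivity))
    have h2 := tendsto_natCast_atTop_atTop (R := ℝ) |>.eventually h1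
    filter_upwards [h2, Filter.eventually_ge_atTop 1] with X hX h3
    have h4 : 0 ≤ Real.log (X : ℝ) := Real.log_natCast_nonneg X
    rw [Real.rpow_natCast, Real.norm_of_nonneg (by positivity),
      Real.norm_of_nonneg (by positivity)] at hX
    calc (4 * c + 5) * Real.log X ^ (A + 6)
        ≤ (4 * c + 5) * (1 / (4 * c + 5) * (X : ℝ) ^ dl κ) :=
          mul_le_mul_of_nonneg_left hX (by positivity)
      _ = (X : ℝ) ^ dl κ := by field_simp
  obtain ⟨X2, hX2⟩ := Filter.eventually_atTop.1 (hev1.and hev2)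
  refine ⟨max (max X1 X2) 2, fun X hX => ?_⟩
  have hXX1 : X1 ≤ X := (le_max_left _ _).trans ((le_max_left _ _).trans hX)
  have hXX2 : X2 ≤ X := (le_max_right _ _).trans ((le_max_left _ _).trans hX)
  have hX2' : 2 ≤ X := (le_max_right _ _).trans hX
  obtain ⟨hL, hLs⟩ := hX2 X hXX2
  set L : ℝ := Real.log X with hLd
  set R : ℝ := (X : ℝ) ^ κ with hRd
  have hXp : (0 : ℝ) < X := by positivity
  have hX1r : (1 : ℝ) ≤ X := by exact_mod_cast (by omega : 1 ≤ X)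
  have hA1 : (1 : ℝ) ≤ 2 ^ A := one_le_pow₀ (by norm_num)
  have hL34 : (34 : ℝ) ≤ L := by nlinarith
  have hL1 : (1 : ℝ) ≤ L := by linarith
  have hL0 : (0 : ℝ) < L := by linarith
  have hLA6 : (1 : ℝ) ≤ L ^ (A + 6) := one_le_pow₀ hL1
  have hR0 : 0 < R := by positivity
  have hR5 : 5 ≤ R := by
    have h3 : (X : ℝ) ^ dl κ ≤ R := Real.rpow_le_rpow_of_exponent_le hX1r hδκ
    have h4 : 5 ≤ (4 * c + 5) * L ^ (A + 6) := by nlinarith
    linarith
  set J : ℕ := ⌈L ^ (A + 6)⌉₊ with hJd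
  have hJlo : L ^ (A + 6) ≤ (J : ℝ) := Nat.le_ceil _
  have hJ0 : (0 : ℝ) < J := by linarith
  have hJhi : (J : ℝ) ≤ 2 * L ^ (A + 6) := by
    have := Nat.ceil_lt_add_one (show 0 ≤ L ^ (A + 6) by positivity)
    rw [← hJd] at this
    linarith
  set H : ℕ := ⌈(X : ℝ) ^ (1 / 2 + κ - dl κ)⌉₊ with hHd
  set hh : ℕ → ℕ := fun j => ⌊R * (1 + j / J)⌋₊ with hhd
  set Bad : ℕ → Finset ℕ := fun j => (Ioc X (2 * X)).filter (fun N => Even N ∧
    ((hh j : ℕ) : ℝ) / L ^ (2 * A + 7) <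
    |∑ n ∈ (Ioc (yB c X H N) (yB c X H N + hh j)).filter (fun n => n < N),
      th n * th (N - n) - SS N * (hh j)|) with hBad
  have hBadc : ∀ j ∈ range (J + 1), ((Bad j).card : ℝ) ≤ X / L ^ (2 * A + 7) := by
    intro j hj
    rw [mem_range] at hj
    have hjJ : (j : ℝ) ≤ J := by exact_mod_cast (by omega : j ≤ J)
    have hj1 : (j : ℝ) / J ≤ 1 := by rw [div_le_one hJ0]; exact hjJ
    have hj0 : 0 ≤ (j : ℝ) / J := by positivity
    refine hX1 X hXX1 H (hh j) rfl ?_ ?_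
    · have h3 : R * (1 + j / J) < (hh j : ℝ) + 1 := Nat.lt_floor_add_one _
      have h4 : R ≤ R * (1 + j / J) := by nlinarith
      linarith
    · have h3 : (hh j : ℝ) ≤ R * (1 + j / J) := Nat.floor_le (by positivity)
      have h4 : R * (1 + j / J) ≤ 2 * R := by nlinarith
      linarith
  have hsub : ExU c κ A (Ioc X (2 * X)) ⊆ (range (J + 1)).biUnion Bad := by
    intro N hN
    by_contra hcon
    simp only [ExU, Finset.mem_filter] at hN
    obtain ⟨hNI, hNe, hlt⟩ := hN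
    have hNI' := mem_Ioc.1 hNI
    have hNr : (N : ℝ) ≤ 2 * X := by exact_mod_cast hNI'.2
    have hNx : (X : ℝ) < N := by exact_mod_cast hNI'.1
    have hNR2 : (N : ℝ) ^ κ ≤ 2 * R := by
      calc (N : ℝ) ^ κ ≤ (2 * X) ^ κ :=
            Real.rpow_le_rpow (by positivity) hNr (by linarith)
        _ = 2 ^ κ * R := by rw [Real.mul_rpow (by norm_num) hXp.le]
        _ ≤ 2 ^ (1 : ℝ) * R := by
            refine mul_le_mul_of_nonneg_right ?_ hR0.le
            exact Real.rpow_le_rpow_of_exponent_le (by norm_num) (by linarith)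
        _ = 2 * R := by rw [Real.rpow_one]
    set j : ℕ := ⌊((N : ℝ) ^ κ / R - 1) * J⌋₊ with hjd
    have hjJ : j ≤ J := by
      have h3 : ((N : ℝ) ^ κ / R - 1) * J ≤ (J : ℝ) := by
        have h4 : (N : ℝ) ^ κ / R ≤ 2 := by rw [div_le_iff₀ hR0]; exact hNR2
        nlinarith
      have h5 := Nat.floor_le_floor h3
      rw [Nat.floor_natCast] at h5
      exact h5
    have hgood : |∑ n ∈ (Ioc (yB c X H N) (yB c X H N + hh j)).filter (fun n => n < N),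
        th n * th (N - n) - SS N * (hh j)| ≤ ((hh j : ℕ) : ℝ) / L ^ (2 * A + 7) := by
      by_contra hlt2
      refine hcon (mem_biUnion.2 ⟨j, mem_range.2 (by omega), ?_⟩)
      simp only [hBad]
      rw [mem_filter]
      exact ⟨hNI, hNe, not_le.1 hlt2⟩
    obtain ⟨hSS1, hSS2⟩ := h2 N (by omega)
    have hfin := point (c := c) (κ := κ) (δ := dl κ) (L := L) (R := R) (A := A) (X := X) (H := H)
      (N := N) (j := j) (J := J) (h := hh j) hc (by linarith) (by linarith) hLd hL hRd hLs hδκ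
      hX2' hHd hNI'.1 hNI'.2 hJd hjd rfl hSS1 hSS2 hgood
    exact absurd hlt (not_lt.2 hfin)
  calc ((ExU c κ A (Ioc X (2 * X))).card : ℝ)
      ≤ (((range (J + 1)).biUnion Bad).card : ℝ) := by
        exact_mod_cast Finset.card_le_card hsub
    _ ≤ ((∑ j ∈ range (J + 1), (Bad j).card : ℕ) : ℝ) := by
        exact_mod_cast Finset.card_biUnion_le
    _ = ∑ j ∈ range (J + 1), ((Bad j).card : ℝ) := by push_cast; rfl
    _ ≤ ∑ _j ∈ range (J + 1), X / L ^ (2 * A + 7) := Finset.sum_le_sum hBadc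
    _ = (J + 1) * (X / L ^ (2 * A + 7)) := by
        rw [Finset.sum_const, Finset.card_range, nsmul_eq_mul]
        push_cast
        rfl
    _ ≤ (L * L ^ (A + 6)) * (X / L ^ (2 * A + 7)) := by
        refine mul_le_mul_of_nonneg_right ?_ (by positivity)
        nlinarith
    _ = X / L ^ A := by
        rw [show 2 * A + 7 = A + (A + 7) by ring, pow_add L A (A + 7)]
        field_simp
        ring

end Pool.Agent.Helper82.SU
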